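import Pool.Agent.H56.VM.ROT2

set_option autoImplicit false

open MeasureTheory

namespace Pool.Agent.H56.VM

open Pool.Agent.H28.VM

/-- pointwise bound of the shifted integrand -/
theorem pointwise {L : ℕ} (hL : 1000 ≤ L) {w : ℤ × ℤ} (hw : w ∈ WW) {k k₁ : ℤ × ℤ} {φ : ℝ}
    (hk : near w k) (hk₁ : 4000 * nm k₁ ≤ (|pe k w| : ℤ)) (hφ1 : 1 / 10 ≤ |φ|) (hφ2 : |φ| ≤ Real.pi)
    (hL2 : 2 * (L : ℤ) ≤ |pe k w|) :
    ∃ ε : ℝ, ∀ r θ : ℝ, 0 ≤ r → r ≤ 1.56 →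
      ‖Complex.exp (((r : ℂ) * (((k.1 - k₁.1 : ℤ) : ℂ) * Complex.cos ((θ : ℂ) + (ε : ℂ) * Complex.I) +
          ((k.2 - k₁.2 : ℤ) : ℂ) * Complex.sin ((θ : ℂ) + (ε : ℂ) * Complex.I))) * Complex.I) *
        Complex.cos (((r : ℂ) * ((w.1 : ℂ) * Complex.cos ((θ : ℂ) + (ε : ℂ) * Complex.I) +
          (w.2 : ℂ) * Complex.sin ((θ : ℂ) + (ε : ℂ) * Complex.I)) - φ) / 2)
          ^ (2 * JJ L w k)‖ ≤ Real.exp (-(1 / (10000000 * (L : ℝ)) * nm k)) := by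
  have hLr : (1000 : ℝ) ≤ (L : ℝ) := by exact_mod_cast hL
  have hL0 : (0 : ℝ) < (L : ℝ) := by linarith
  set s : ℝ := 1 / (10000 * (L : ℝ)) with hs
  have hs0 : 0 < s := by positivity
  set E : ℝ := ((|pe k w| : ℤ) : ℝ) with hE
  have hE2 : 2 * (L : ℝ) ≤ E := by rw [hE]; exact_mod_cast hL2
  have hE0 : 0 < E := by linarith
  have hEabs : E = |(pe k w : ℝ)| := by rw [hE]; push_cast; rfl
  -- signs
  obtain ⟨σ, hσ, hσφ⟩ : ∃ σ : ℝ, (σ = 1 ∨ σ = -1) ∧ σ * φ = |φ| := by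
    rcases le_total 0 φ with h | h
    · exact ⟨1, Or.inl rfl, by rw [abs_of_nonneg h]; ring⟩
    · exact ⟨-1, Or.inr rfl, by rw [abs_of_nonpos h]; ring⟩
  obtain ⟨ν, hν, hνp⟩ : ∃ ν : ℝ, (ν = 1 ∨ ν = -1) ∧ ν * (pe k w : ℝ) = E := by
    rcases le_total 0 (pe k w : ℝ) with h | h
    · exact ⟨1, Or.inl rfl, by rw [hEabs, abs_of_nonneg h]; ring⟩
    · exact ⟨-1, Or.inr rfl, by rw [hEabs, abs_of_nonpos h]; ring⟩
  have hσ2 : σ * σ = 1 := by rcases hσ with h | h <;> rw [h] <;> norm_num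
  have hν2 : ν * ν = 1 := by rcases hν with h | h <;> rw [h] <;> norm_num
  refine ⟨Real.arsinh (σ * ν * s), fun r θ hr0 hr1 => ?_⟩
  set ε : ℝ := Real.arsinh (σ * ν * s) with hε
  have hsinh : Real.sinh ε = σ * ν * s := Real.sinh_arsinh _
  have hcosh : Real.cosh ε ^ 2 = 1 + s ^ 2 := by
    rw [Real.cosh_sq, hsinh]
    linear_combination (σ * σ * s ^ 2) * hν2 + s ^ 2 * hσ2
  have hcosh1 : 1 ≤ Real.cosh ε := Real.one_le_cosh ε
  have hcosh2 : Real.cosh ε ≤ 1 + s ^ 2 := by nlinarith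
  rw [norm_mul]
  have hA := norm_exp_part ((k.1 - k₁.1 : ℤ) : ℝ) ((k.2 - k₁.2 : ℤ) : ℝ) r θ ε
  have hB := norm_cos_part (w.1 : ℝ) (w.2 : ℝ) r θ ε φ (JJ L w k)
  simp only [Complex.ofReal_intCast] at hA hB
  rw [hA, hB, hsinh]
  set x : ℝ := r * Real.cos θ with hx
  set y : ℝ := r * Real.sin θ with hy
  have hxy : x ^ 2 + y ^ 2 = r ^ 2 := by
    rw [hx, hy]
    linear_combination r ^ 2 * Real.sin_sq_add_cos_sq θ
  set X : ℝ := (w.1 : ℝ) * x + (w.2 : ℝ) * y with hX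
  set Y : ℝ := (w.1 : ℝ) * y - (w.2 : ℝ) * x with hY
  set W : ℝ := (w.1 : ℝ) ^ 2 + (w.2 : ℝ) ^ 2 with hWdef
  have hW : W = 1 ∨ W = 2 := by
    rcases WW_norm hw with h | h
    · left; rw [hWdef]; exact_mod_cast h
    · right; rw [hWdef]; exact_mod_cast h
  have hW0 : 0 < W := by rcases hW with h | h <;> rw [h] <;> norm_num
  have hXY : (σ * X) ^ 2 + Y ^ 2 ≤ W * 1.56 ^ 2 := by
    have h1 : (σ * X) ^ 2 + Y ^ 2 = W * r ^ 2 := by
      rw [← hxy]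
      have : (σ * X) ^ 2 = X ^ 2 := by linear_combination X ^ 2 * hσ2
      rw [this, hX, hY, hWdef]; ring
    rw [h1]
    apply mul_le_mul_of_nonneg_left _ hW0.le
    exact pow_le_pow_left₀ hr0 hr1 2
  have hal : 200 * |(al k w : ℝ)| ≤ E := by
    have := hk
    unfold near at this
    rw [hE]
    exact_mod_cast this
  have hJ1 : E / (2 * L) ≤ (JJ L w k : ℝ) := by
    have h1 : ((pe k w).natAbs : ℝ) = E := by
      rw [hE, Nat.cast_natAbs]
    have h2 : ((pe k w).natAbs : ℝ) < L * ((JJ L w k : ℝ) + 1) := by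
      have h3 := Nat.lt_mul_div_succ (pe k w).natAbs (show 0 < L by omega)
      unfold JJ
      exact_mod_cast h3
    rw [h1] at h2
    rw [div_le_iff₀ (by linarith)]
    by_contra hcon
    push Not at hcon
    nlinarith
  have hJ2 : (JJ L w k : ℝ) ≤ E / L := by
    have h1 : ((pe k w).natAbs : ℝ) = E := by
      rw [hE, Nat.cast_natAbs]
    rw [← h1]
    exact Nat.cast_div_le
  have hkey := key (L := (L : ℝ)) (s := s) (c := Real.cosh ε) (E := E) (al := (al k w : ℝ))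
    (κ := nm k₁) (W := W) (X := σ * X) (Y := Y) (φ := |φ|) (J := JJ L w k) hLr hs hcosh1 hcosh2
    hE0 hJ1 hJ2 hW hal hk₁ hXY hφ1 hφ2
  -- compare the cosine factors
  have hcos : Real.cos ((X * Real.cosh ε - φ) / 2) ^ 2 =
      Real.cos ((σ * X * Real.cosh ε - |φ|) / 2) ^ 2 := by
    rw [← hσφ]
    rcases hσ with h | h
    · rw [h, one_mul, one_mul]
    · rw [h, ← Real.cos_neg]
      congr 2; ring
  have hsinh2 : Real.sinh (Y * (σ * ν * s) / 2) ^ 2 = Real.sinh (Y * s / 2) ^ 2 := by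
    have hτ : σ * ν = 1 ∨ σ * ν = -1 := by
      rcases hσ with h | h <;> rcases hν with h' | h' <;> rw [h, h'] <;> norm_num
    rcases hτ with h | h
    · rw [h, one_mul]
    · rw [h, show Y * (-1 * s) / 2 = -(Y * s / 2) by ring, Real.sinh_neg]; ring
  rw [hcos, hsinh2]
  refine le_trans (le_trans (mul_le_mul_of_nonneg_right ?_ (by positivity)) hkey) ?_
  · apply Real.exp_le_exp.mpr
    -- exponent
    have h1 : (((k.1 - k₁.1 : ℤ) : ℝ) * y - ((k.2 - k₁.2 : ℤ) : ℝ) * x) =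
        ((al k w : ℝ) * Y - (pe k w : ℝ) * X) / W + (-(k₁.1 : ℝ) * y + (k₁.2 : ℝ) * x) := by
      rw [eq_comm, div_add' _ _ _ hW0.ne', div_eq_iff hW0.ne', hX, hY, hWdef]
      unfold al pe
      push_cast
      ring
    have h2 : |(-(k₁.1 : ℝ) * y + (k₁.2 : ℝ) * x)| ≤ 1.56 * nm k₁ := by
      have h3 : (-(k₁.1 : ℝ) * y + (k₁.2 : ℝ) * x) ^ 2 ≤ (1.56 * nm k₁) ^ 2 := by
        rw [mul_pow, nm_sq]
        have h4 : x ^ 2 + y ^ 2 ≤ 1.56 ^ 2 := by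
          rw [hxy]; exact pow_le_pow_left₀ hr0 hr1 2
        have h5 : (-(k₁.1 : ℝ) * y + (k₁.2 : ℝ) * x) ^ 2 ≤
            (x ^ 2 + y ^ 2) * ((k₁.1 : ℝ) ^ 2 + (k₁.2 : ℝ) ^ 2) := by
          nlinarith [sq_nonneg ((k₁.1 : ℝ) * x + (k₁.2 : ℝ) * y)]
        refine h5.trans ?_
        apply mul_le_mul_of_nonneg_right h4 (by positivity)
      exact abs_le_of_sq_le_sq h3 (mul_nonneg (by norm_num) (nm_nonneg _))
    rw [h1]
    have hτ : |σ * ν| = 1 := by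
      rcases hσ with h | h <;> rcases hν with h' | h' <;> rw [h, h'] <;> norm_num
    have h6 : σ * ν * s * (((al k w : ℝ) * Y - (pe k w : ℝ) * X) / W +
        (-(k₁.1 : ℝ) * y + (k₁.2 : ℝ) * x)) =
        s * ((σ * ν * ((al k w : ℝ) * Y) - E * (σ * X)) / W +
          σ * ν * (-(k₁.1 : ℝ) * y + (k₁.2 : ℝ) * x)) := by
      rw [← hνp]
      ring
    rw [h6]
    apply mul_le_mul_of_nonneg_left _ hs0.le
    have h7 : σ * ν * ((al k w : ℝ) * Y) ≤ |(al k w : ℝ)| * |Y| := by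
      calc _ ≤ |σ * ν * ((al k w : ℝ) * Y)| := le_abs_self _
        _ = |(al k w : ℝ)| * |Y| := by rw [abs_mul, hτ, one_mul, abs_mul]
    have h8 : σ * ν * (-(k₁.1 : ℝ) * y + (k₁.2 : ℝ) * x) ≤ 1.56 * nm k₁ := by
      calc _ ≤ |σ * ν * (-(k₁.1 : ℝ) * y + (k₁.2 : ℝ) * x)| := le_abs_self _
        _ = |(-(k₁.1 : ℝ) * y + (k₁.2 : ℝ) * x)| := by rw [abs_mul, hτ, one_mul]
        _ ≤ _ := h2
    have h9 : (σ * ν * ((al k w : ℝ) * Y) - E * (σ * X)) / W ≤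
        (|(al k w : ℝ)| * |Y| - E * (σ * X)) / W := by
      apply div_le_div_of_nonneg_right _ hW0.le
      linarith
    linarith
  · apply Real.exp_le_exp.mpr
    have h1 := al_pe_sq k w
    have h2 : nm w ^ 2 = W := nm_sq w
    rw [h2] at h1
    have h3 : nm k ≤ 1.001 * E := by
      have h4 : nm k ^ 2 ≤ (1.001 * E) ^ 2 := by
        have h5 : nm k ^ 2 ≤ nm k ^ 2 * W := by
          apply le_mul_of_one_le_right (by positivity)
          rcases hW with h | h <;> rw [h]; norm_num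
        have h6 : (pe k w : ℝ) ^ 2 = E ^ 2 := by rw [hEabs, sq_abs]
        have h7 : (al k w : ℝ) ^ 2 ≤ (E / 200) ^ 2 := by
          rw [← sq_abs]
          apply pow_le_pow_left₀ (abs_nonneg _)
          linarith
        nlinarith
      exact abs_le_of_sq_le_sq' h4 (by positivity) |>.2
    have h4 : 1 / (10000000 * (L : ℝ)) * nm k ≤ 1 / (10000000 * (L : ℝ)) * (1.001 * E) :=
      mul_le_mul_of_nonneg_left h3 (by positivity)
    have h5 : 0 ≤ 1 / (10000000 * (L : ℝ)) * E := by positivity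
    have h6 : 2 / (10000000 * (L : ℝ)) * E = 2 * (1 / (10000000 * (L : ℝ)) * E) := by ring
    rw [h6]
    nlinarith

/-- (ROT) -/
theorem rot : T_rot := by
  intro L hL
  have hLr : (1000 : ℝ) ≤ (L : ℝ) := by exact_mod_cast hL
  refine ⟨1 / (10000000 * (L : ℝ)), 16, by positivity, by norm_num, ?_⟩
  intro h hh w hw k k₁ φ hk hk₁ hφ1 hφ2 hL2
  obtain ⟨ε, hε⟩ := pointwise hL hw hk hk₁ hφ1 hφ2 hL2
  rw [sum_ft hh (JJ L w k) k k₁ w φ ε]
  set B : ℝ := Real.exp (-(1 / (10000000 * (L : ℝ)) * nm k)) with hB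
  have hB0 : 0 ≤ B := Real.exp_nonneg _
  have hpi := Real.pi_pos
  have hinner : ∀ r ∈ Set.uIoc (0:ℝ) 1.56, ‖∫ θ in (-Real.pi)..Real.pi,
      ((r * h (r ^ 2) : ℝ) : ℂ) *
        Complex.exp (((r : ℂ) * (((k.1 - k₁.1 : ℤ) : ℂ) * Complex.cos ((θ : ℂ) + (ε : ℂ) * Complex.I) +
          ((k.2 - k₁.2 : ℤ) : ℂ) * Complex.sin ((θ : ℂ) + (ε : ℂ) * Complex.I))) * Complex.I) *
        Complex.cos (((r : ℂ) * ((w.1 : ℂ) * Complex.cos ((θ : ℂ) + (ε : ℂ) * Complex.I) +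
          (w.2 : ℂ) * Complex.sin ((θ : ℂ) + (ε : ℂ) * Complex.I)) - φ) / 2)
          ^ (2 * JJ L w k)‖ ≤ 1.56 * B * |Real.pi - -Real.pi| := by
    intro r hr
    rw [Set.uIoc_of_le (by norm_num)] at hr
    apply intervalIntegral.norm_integral_le_of_norm_le_const
    intro θ _
    rw [mul_assoc, norm_mul]
    apply mul_le_mul _ (hε r θ hr.1.le hr.2) (norm_nonneg _) (by norm_num)
    rw [Complex.norm_real, Real.norm_eq_abs, abs_mul, abs_of_pos hr.1,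
      abs_of_nonneg (hh.nonneg _)]
    have := mul_le_mul hr.2 (hh.le_one (r ^ 2)) (hh.nonneg _) (by norm_num)
    linarith
  refine (intervalIntegral.norm_integral_le_of_norm_le_const hinner).trans ?_
  rw [show Real.pi - -Real.pi = 2 * Real.pi by ring, abs_of_pos (by positivity),
    show |(1.56 : ℝ) - 0| = 1.56 by rw [sub_zero, abs_of_pos (by norm_num)]]
  have hpi4 := Real.pi_lt_d2
  nlinarith

end Pool.Agent.H56.VM
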