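import Pool.Agent.H28.VM.Basic

set_option autoImplicit false

open MeasureTheory

namespace Pool.Agent.H56.VM

open Pool.Agent.H28.VM

/-- integrand in polar coordinates -/
noncomputable def Phi (h : ℝ → ℝ) (k : ℤ × ℤ) (r : ℝ) (ζ : ℂ) : ℂ :=
  ((r * h (r ^ 2) : ℝ) : ℂ) *
    Complex.exp (((r : ℂ) * ((k.1 : ℂ) * Complex.cos ζ + (k.2 : ℂ) * Complex.sin ζ)) * Complex.I)

theorem Phi_cont {h : ℝ → ℝ} (hc : Continuous h) (k : ℤ × ℤ) (ε : ℝ) :
    Continuous fun p : ℝ × ℝ => Phi h k p.1 ((p.2 : ℂ) + (ε : ℂ) * Complex.I) := by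
  unfold Phi
  fun_prop

theorem Phi_cont0 {h : ℝ → ℝ} (hc : Continuous h) (k : ℤ × ℤ) :
    Continuous fun p : ℝ × ℝ => Phi h k p.1 (p.2 : ℂ) := by
  unfold Phi
  fun_prop

theorem ft_polar {h : ℝ → ℝ} (hh : Cut h) (k : ℤ × ℤ) :
    ft h k = ∫ r in (0:ℝ)..1.56, ∫ θ in (-Real.pi)..Real.pi, Phi h k r (θ : ℂ) := by
  have hcont : Continuous h := hh.smooth.continuous
  unfold ft
  rw [← integral_comp_polarCoord_symm]
  have hF : ∀ p : ℝ × ℝ, p.1 • (((h ((polarCoord.symm p).1 ^ 2 + (polarCoord.symm p).2 ^ 2) : ℝ) : ℂ)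
      * ee (dt k (polarCoord.symm p))) = Phi h k p.1 (p.2 : ℂ) := by
    intro p
    rw [polarCoord_symm_apply]
    have h1 : (p.1 * Real.cos p.2) ^ 2 + (p.1 * Real.sin p.2) ^ 2 = p.1 ^ 2 := by
      have := Real.sin_sq_add_cos_sq p.2
      linear_combination p.1 ^ 2 * this
    simp only [h1]
    unfold Phi ee dt
    rw [Complex.real_smul]
    push_cast
    rw [mul_assoc]
    congr 3
    ring
  have hset : polarCoord.target = Set.Ioi (0:ℝ) ×ˢ Set.Ioo (-Real.pi) Real.pi := rfl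
  rw [hset]
  have hstep : (∫ p in Set.Ioi (0:ℝ) ×ˢ Set.Ioo (-Real.pi) Real.pi,
      p.1 • (((h ((polarCoord.symm p).1 ^ 2 + (polarCoord.symm p).2 ^ 2) : ℝ) : ℂ)
      * ee (dt k (polarCoord.symm p)))) =
      ∫ p in Set.Ioi (0:ℝ) ×ˢ Set.Ioo (-Real.pi) Real.pi, Phi h k p.1 (p.2 : ℂ) :=
    setIntegral_congr_fun (measurableSet_Ioi.prod measurableSet_Ioo) (fun p _ => hF p)
  rw [hstep]
  have hsub : Set.Ioc (0:ℝ) 1.56 ×ˢ Set.Ioo (-Real.pi) Real.pi ⊆
      Set.Ioi (0:ℝ) ×ˢ Set.Ioo (-Real.pi) Real.pi := by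
    apply Set.prod_mono _ (le_refl _)
    intro x hx; exact hx.1
  rw [setIntegral_eq_of_subset_of_forall_sdiff_eq_zero (measurableSet_Ioi.prod measurableSet_Ioo)
    hsub]
  · rw [Measure.volume_eq_prod, setIntegral_prod]
    · rw [intervalIntegral.integral_of_le (by norm_num)]
      refine setIntegral_congr_fun measurableSet_Ioc (fun r _ => ?_)
      simp only
      rw [intervalIntegral.integral_of_le (by linarith [Real.pi_pos]), integral_Ioc_eq_integral_Ioo]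
    · rw [← Measure.volume_eq_prod]
      apply IntegrableOn.mono_set (t := Set.Icc (0:ℝ) 1.56 ×ˢ Set.Icc (-Real.pi) Real.pi)
      · exact (Phi_cont0 hcont k).continuousOn.integrableOn_compact
          (isCompact_Icc.prod isCompact_Icc)
      · exact Set.prod_mono Set.Ioc_subset_Icc_self Set.Ioo_subset_Icc_self
  · rintro ⟨r, θ⟩ ⟨hp1, hp2⟩
    simp only [Set.mem_prod, Set.mem_Ioi, Set.mem_Ioo, Set.mem_Ioc, not_and] at hp1 hp2
    have hr : (1.56 : ℝ) < r := by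
      by_contra hcon
      exact hp2 ⟨hp1.1, not_lt.mp hcon⟩ hp1.2.1 hp1.2.2
    have hz : h (r ^ 2) = 0 := by
      apply hh.zero
      gcongr
    unfold Phi
    simp [hz]

/-- shift of the contour for entire `2π`-periodic functions -/
theorem shift_contour {f : ℂ → ℂ} (hf : Differentiable ℂ f)
    (hper : ∀ ζ, f (ζ + 2 * Real.pi) = f ζ) (ε : ℝ) :
    ∫ θ in (-Real.pi)..Real.pi, f (θ : ℂ) =
      ∫ θ in (-Real.pi)..Real.pi, f ((θ : ℂ) + (ε : ℂ) * Complex.I) := by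
  have h := Complex.integral_boundary_rect_eq_zero_of_differentiableOn f
    (⟨-Real.pi, 0⟩ : ℂ) (⟨Real.pi, ε⟩ : ℂ) hf.differentiableOn
  simp only at h
  have h1 : ∀ y : ℝ, f ((Real.pi : ℂ) + (y : ℂ) * Complex.I) =
      f (((-Real.pi : ℝ) : ℂ) + (y : ℂ) * Complex.I) := by
    intro y
    rw [← hper (((-Real.pi : ℝ) : ℂ) + (y : ℂ) * Complex.I)]
    congr 1
    push_cast
    ring
  simp only [h1] at h
  rw [add_sub_cancel_right, sub_eq_zero] at h
  simpa using h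

theorem ft_shift {h : ℝ → ℝ} (hh : Cut h) (k : ℤ × ℤ) (ε : ℝ) :
    ft h k = ∫ r in (0:ℝ)..1.56, ∫ θ in (-Real.pi)..Real.pi,
      Phi h k r ((θ : ℂ) + (ε : ℂ) * Complex.I) := by
  rw [ft_polar hh]
  refine intervalIntegral.integral_congr (fun r _ => ?_)
  apply shift_contour (f := fun ζ => Phi h k r ζ)
  · unfold Phi
    fun_prop
  · intro ζ
    unfold Phi
    rw [Complex.cos_add_two_pi, Complex.sin_add_two_pi]

/-- the window sum in the integrand -/
theorem sum_Phi (h : ℝ → ℝ) (J : ℕ) (k k₁ w : ℤ × ℤ) (φ r : ℝ) (ζ : ℂ) :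
    ∑ l ∈ IJ J, (win J l : ℂ) * ee (-((l : ℝ) * φ)) * Phi h (sh k l w - k₁) r ζ =
      ((r * h (r ^ 2) : ℝ) : ℂ) *
        Complex.exp (((r : ℂ) * (((k.1 - k₁.1 : ℤ) : ℂ) * Complex.cos ζ +
          ((k.2 - k₁.2 : ℤ) : ℂ) * Complex.sin ζ)) * Complex.I) *
        Complex.cos (((r : ℂ) * ((w.1 : ℂ) * Complex.cos ζ + (w.2 : ℂ) * Complex.sin ζ) - φ) / 2)
          ^ (2 * J) := by
  rw [← win_gen, Finset.mul_sum]
  refine Finset.sum_congr rfl fun l _ => ?_
  unfold Phi ee sh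
  simp only [Prod.fst_sub, Prod.snd_sub]
  rw [show ∀ a b c d : ℂ, a * b * (c * d) = c * (a * (b * d)) by intros; ring,
    show ∀ a b c d : ℂ, a * b * (c * d) = a * (c * (b * d)) by intros; ring,
    ← Complex.exp_add, ← Complex.exp_add]
  congr 3
  push_cast
  ring

theorem sum_ft {h : ℝ → ℝ} (hh : Cut h) (J : ℕ) (k k₁ w : ℤ × ℤ) (φ ε : ℝ) :
    ∑ l ∈ IJ J, (win J l : ℂ) * ft h (sh k l w - k₁) * ee (-((l : ℝ) * φ)) =
      ∫ r in (0:ℝ)..1.56, ∫ θ in (-Real.pi)..Real.pi, ((r * h (r ^ 2) : ℝ) : ℂ) *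
        Complex.exp (((r : ℂ) * (((k.1 - k₁.1 : ℤ) : ℂ) * Complex.cos ((θ : ℂ) + (ε : ℂ) * Complex.I) +
          ((k.2 - k₁.2 : ℤ) : ℂ) * Complex.sin ((θ : ℂ) + (ε : ℂ) * Complex.I))) * Complex.I) *
        Complex.cos (((r : ℂ) * ((w.1 : ℂ) * Complex.cos ((θ : ℂ) + (ε : ℂ) * Complex.I) +
          (w.2 : ℂ) * Complex.sin ((θ : ℂ) + (ε : ℂ) * Complex.I)) - φ) / 2)
          ^ (2 * J) := by
  have hcont : Continuous h := hh.smooth.continuous
  have hPc : ∀ l : ℤ, Continuous fun p : ℝ × ℝ =>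
      Phi h (sh k l w - k₁) p.1 ((p.2 : ℂ) + (ε : ℂ) * Complex.I) := fun l => Phi_cont hcont _ ε
  have h1 : ∀ l ∈ IJ J, (win J l : ℂ) * ft h (sh k l w - k₁) * ee (-((l : ℝ) * φ)) =
      ∫ r in (0:ℝ)..1.56, ((win J l : ℂ) * ee (-((l : ℝ) * φ))) *
        ∫ θ in (-Real.pi)..Real.pi, Phi h (sh k l w - k₁) r ((θ : ℂ) + (ε : ℂ) * Complex.I) := by
    intro l _
    rw [intervalIntegral.integral_const_mul, ← ft_shift hh]
    ring
  rw [Finset.sum_congr rfl h1, ← intervalIntegral.integral_finsetSum]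
  · refine intervalIntegral.integral_congr (fun r _ => ?_)
    have h2 : ∀ l ∈ IJ J, ((win J l : ℂ) * ee (-((l : ℝ) * φ))) *
        (∫ θ in (-Real.pi)..Real.pi, Phi h (sh k l w - k₁) r ((θ : ℂ) + (ε : ℂ) * Complex.I)) =
        ∫ θ in (-Real.pi)..Real.pi, ((win J l : ℂ) * ee (-((l : ℝ) * φ))) *
          Phi h (sh k l w - k₁) r ((θ : ℂ) + (ε : ℂ) * Complex.I) := by
      intro l _
      rw [intervalIntegral.integral_const_mul]
    rw [Finset.sum_congr rfl h2, ← intervalIntegral.integral_finsetSum]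
    · refine intervalIntegral.integral_congr (fun θ _ => ?_)
      exact sum_Phi h J k k₁ w φ r _
    · intro l _
      apply Continuous.intervalIntegrable
      apply continuous_const.mul
      exact (hPc l).comp (by fun_prop : Continuous fun θ : ℝ => (r, θ))
  · intro l _
    apply Continuous.intervalIntegrable
    apply continuous_const.mul
    apply intervalIntegral.continuous_parametric_intervalIntegral_of_continuous'
    exact hPc l

end Pool.Agent.H56.VM
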