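import Pool.Agent.H56.VM.ROT1

set_option autoImplicit false

open MeasureTheory

namespace Pool.Agent.H56.VM

open Pool.Agent.H28.VM

theorem sinh_sq_le {b : ℝ} (hb : |b| ≤ 1 / 2) : Real.sinh b ^ 2 ≤ 2 * b ^ 2 := by
  have h1 : Real.cosh (2 * b) = 1 + 2 * Real.sinh b ^ 2 := by
    rw [Real.cosh_two_mul, Real.cosh_sq]; ring
  have h2 := Real.cosh_le_exp_half_sq (2 * b)
  have h3 : |b| ^ 2 = b ^ 2 := sq_abs b
  have h4 : b ^ 2 ≤ 1 / 4 := by
    rw [← h3]; nlinarith [abs_nonneg b]
  have h5 : Real.exp ((2 * b) ^ 2 / 2) ≤ 1 + 4 * b ^ 2 := by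
    have h6 : |(2 * b) ^ 2 / 2| ≤ 1 := by
      rw [abs_of_nonneg (by positivity)]; nlinarith
    have h7 := Real.abs_exp_sub_one_le h6
    rw [abs_of_nonneg (a := (2 * b) ^ 2 / 2) (by positivity)] at h7
    have h8 := (abs_le.mp h7).2
    nlinarith
  nlinarith

theorem sin_lower {a : ℝ} (h1 : 0.0399 ≤ a) (h2 : a ≤ Real.pi - 0.0399) :
    0.0398 ≤ Real.sin a := by
  have h0 : (0.0398 : ℝ) ≤ Real.sin 0.0399 := by
    have := Real.sin_gt_sub_cube (x := 0.0399) (by norm_num)
    norm_num at this ⊢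
    linarith
  have hpi := Real.pi_gt_three
  rcases le_total a (Real.pi / 2) with h | h
  · exact h0.trans (Real.sin_le_sin_of_le_of_le_pi_div_two (by linarith) h h1)
  · rw [← Real.sin_pi_sub]
    exact h0.trans (Real.sin_le_sin_of_le_of_le_pi_div_two (by linarith) (by linarith) (by linarith))

theorem key {L s c E al κ W X Y φ : ℝ} {J : ℕ} (hL : 1000 ≤ L) (hs : s = 1 / (10000 * L))
    (hc1 : 1 ≤ c) (hc2 : c ≤ 1 + s ^ 2) (hE : 0 < E) (hJ1 : E / (2 * L) ≤ J)
    (hJ2 : (J : ℝ) ≤ E / L) (hW : W = 1 ∨ W = 2) (hal : 200 * |al| ≤ E) (hκ : 4000 * κ ≤ E)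
    (hXY : X ^ 2 + Y ^ 2 ≤ W * 1.56 ^ 2) (hφ1 : 1 / 10 ≤ φ) (hφ2 : φ ≤ Real.pi) :
    Real.exp (s * ((|al| * |Y| - E * X) / W + 1.56 * κ)) *
      (Real.cos ((X * c - φ) / 2) ^ 2 + Real.sinh (Y * s / 2) ^ 2) ^ J ≤
        Real.exp (-(2 / (10000000 * L) * E)) := by
  have hL0 : (0 : ℝ) < L := by linarith
  have hs0 : 0 < s := by rw [hs]; positivity
  have hs1 : s ≤ 1 / 10000000 := by
    rw [hs]
    apply one_div_le_one_div_of_le (by norm_num)
    linarith
  have hss : 2.5 * s ^ 2 ≤ 0.0000001 := by nlinarith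
  have hc3 : c ≤ 1.0001 := by linarith
  have hW1 : 1 ≤ W := by rcases hW with h | h <;> rw [h]; norm_num
  have hW2 : W ≤ 2 := by rcases hW with h | h <;> rw [h]; norm_num
  have hX : |X| ≤ 2.21 := by
    apply abs_le_of_sq_le_sq _ (by norm_num)
    nlinarith [sq_nonneg Y]
  have hY : |Y| ≤ 2.21 := by
    apply abs_le_of_sq_le_sq _ (by norm_num)
    nlinarith [sq_nonneg X]
  have hY2 : Y ^ 2 ≤ 4.9 := by nlinarith [sq_nonneg X]
  have hsh : Real.sinh (Y * s / 2) ^ 2 ≤ 2.5 * s ^ 2 := by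
    have hb : |Y * s / 2| ≤ 1 / 2 := by
      rw [abs_div, abs_mul, abs_of_pos hs0, abs_two]
      have : |Y| * s ≤ 2.21 * (1 / 10000000) := by gcongr
      linarith
    have := sinh_sq_le hb
    have h3 : 2 * (Y * s / 2) ^ 2 = Y ^ 2 / 2 * s ^ 2 := by ring
    rw [h3] at this
    have h4 : Y ^ 2 / 2 * s ^ 2 ≤ 2.5 * s ^ 2 := by
      apply mul_le_mul_of_nonneg_right _ (by positivity)
      linarith
    linarith
  have hEL : 0 < E / L := by positivity
  have hsE : s * E = E / L / 10000 := by rw [hs]; field_simp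
  have hB0 : 0 ≤ Real.cos ((X * c - φ) / 2) ^ 2 + Real.sinh (Y * s / 2) ^ 2 := by positivity
  have hgoal : Real.exp (-(2 / (10000000 * L) * E)) = Real.exp (-(2 / 10000000) * (E / L)) := by
    congr 1; field_simp
  rw [hgoal]
  have hκ' : 1.56 * κ ≤ 0.00039 * E := by linarith
  rcases le_or_gt 0.02 X with hX0 | hX0
  · -- exponential gain
    have h1 : (|al| * |Y| - E * X) / W + 1.56 * κ ≤ -0.004 * E := by
      rcases hW with h | h
      · subst h
        have hY1 : |Y| ≤ 1.56 := by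
          apply abs_le_of_sq_le_sq _ (by norm_num)
          nlinarith [sq_nonneg X]
        have h3 : |al| * |Y| ≤ (E / 200) * 1.56 := by
          apply mul_le_mul _ hY1 (abs_nonneg _) (by positivity)
          linarith
        have h4 : E * 0.02 ≤ E * X := by gcongr
        rw [div_one]
        linarith
      · subst h
        have h3 : |al| * |Y| ≤ (E / 200) * 2.21 := by
          apply mul_le_mul _ hY (abs_nonneg _) (by positivity)
          linarith
        have h4 : E * 0.02 ≤ E * X := by gcongr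
        have h5 : (|al| * |Y| - E * X) / 2 ≤ ((E / 200) * 2.21 - E * 0.02) / 2 := by
          apply div_le_div_of_nonneg_right _ (by norm_num)
          linarith
        linarith
    have h2 : (Real.cos ((X * c - φ) / 2) ^ 2 + Real.sinh (Y * s / 2) ^ 2) ^ J ≤
        Real.exp (2.5 * s ^ 2 * (E / L)) := by
      have h3 : Real.cos ((X * c - φ) / 2) ^ 2 + Real.sinh (Y * s / 2) ^ 2 ≤
          Real.exp (2.5 * s ^ 2) := by
        have := Real.add_one_le_exp (2.5 * s ^ 2)
        have := Real.cos_sq_le_one ((X * c - φ) / 2)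
        linarith
      calc _ ≤ (Real.exp (2.5 * s ^ 2)) ^ J := pow_le_pow_left₀ hB0 h3 J
        _ = Real.exp (J * (2.5 * s ^ 2)) := (Real.exp_nat_mul _ _).symm
        _ ≤ Real.exp (2.5 * s ^ 2 * (E / L)) := by
          apply Real.exp_le_exp.mpr
          rw [mul_comm]
          gcongr
    calc _ ≤ Real.exp (s * (-0.004 * E)) * Real.exp (2.5 * s ^ 2 * (E / L)) := by
          apply mul_le_mul _ h2 (by positivity) (Real.exp_nonneg _)
          apply Real.exp_le_exp.mpr
          exact mul_le_mul_of_nonneg_left h1 hs0.le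
      _ = Real.exp (s * (-0.004 * E) + 2.5 * s ^ 2 * (E / L)) := (Real.exp_add _ _).symm
      _ ≤ _ := by
        apply Real.exp_le_exp.mpr
        have h5 : s * (-0.004 * E) = -0.0000004 * (E / L) := by
          have : s * (-0.004 * E) = -0.004 * (s * E) := by ring
          rw [this, hsE]; ring
        rw [h5]
        have h6 : 2.5 * s ^ 2 ≤ 0.0000001 := hss
        have h7 := mul_le_mul_of_nonneg_right h6 hEL.le
        linarith
  · have h1 : (|al| * |Y| - E * X) / W + 1.56 * κ ≤ 2.23 * E := by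
      have h3 : |al| * |Y| ≤ (E / 200) * 2.21 := by
        apply mul_le_mul _ hY (abs_nonneg _) (by positivity)
        linarith
      have h4 : - (E * X) ≤ E * 2.21 := by
        have h8 : -X ≤ 2.21 := (neg_le_abs X).trans hX
        have h9 := mul_le_mul_of_nonneg_left h8 hE.le
        linarith
      have h5 : (|al| * |Y| - E * X) / W ≤ E / 200 * 2.21 + E * 2.21 := by
        rw [div_le_iff₀ (by linarith)]
        have h6 : 0 ≤ E / 200 * 2.21 + E * 2.21 := by positivity
        have h7 := le_mul_of_one_le_right h6 hW1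
        linarith
      linarith
    have hXc1 : X * c ≤ 0.0201 := by
      rcases le_total X 0 with h | h
      · have : X * c ≤ 0 := mul_nonpos_of_nonpos_of_nonneg h (by linarith)
        linarith
      · have h3 : c ≤ 1.0001 := hc3
        have : X * c ≤ 0.02 * 1.0001 := by
          apply mul_le_mul hX0.le h3 (by linarith) (by norm_num)
        linarith
    have hXc2 : -2.22 ≤ X * c := by
      have h3 : c ≤ 1.0001 := hc3
      have h4 := neg_abs_le X
      have h5 : |X| * c ≤ 2.21 * 1.0001 := by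
        apply mul_le_mul hX h3 (by linarith) (by norm_num)
      have h6 := mul_le_mul_of_nonneg_right h4 (zero_le_one.trans hc1)
      linarith
    have hsin : 0.0398 ≤ Real.sin ((φ - X * c) / 2) := by
      apply sin_lower
      · linarith
      · have := Real.pi_gt_three
        linarith
    have hcos : Real.cos ((X * c - φ) / 2) ^ 2 ≤ 1 - 0.00158 := by
      have h3 : Real.cos ((X * c - φ) / 2) = Real.cos ((φ - X * c) / 2) := by
        rw [← Real.cos_neg]; congr 1; ring
      rw [h3, Real.cos_sq']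
      nlinarith
    have h2 : (Real.cos ((X * c - φ) / 2) ^ 2 + Real.sinh (Y * s / 2) ^ 2) ^ J ≤
        Real.exp (-0.00075 * (E / L)) := by
      have h3 : Real.cos ((X * c - φ) / 2) ^ 2 + Real.sinh (Y * s / 2) ^ 2 ≤
          Real.exp (-0.0015) := by
        have h4 := Real.add_one_le_exp (-0.0015)
        have h5 : 2.5 * s ^ 2 ≤ 0.0000001 := hss
        linarith
      calc _ ≤ (Real.exp (-0.0015)) ^ J := pow_le_pow_left₀ hB0 h3 J
        _ = Real.exp (J * (-0.0015)) := (Real.exp_nat_mul _ _).symm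
        _ ≤ Real.exp (-0.00075 * (E / L)) := by
          apply Real.exp_le_exp.mpr
          have h6 : E / (2 * L) = E / L / 2 := by field_simp
          rw [h6] at hJ1
          linarith
    calc _ ≤ Real.exp (s * (2.23 * E)) * Real.exp (-0.00075 * (E / L)) := by
          apply mul_le_mul _ h2 (by positivity) (Real.exp_nonneg _)
          apply Real.exp_le_exp.mpr
          exact mul_le_mul_of_nonneg_left h1 hs0.le
      _ = Real.exp (s * (2.23 * E) + -0.00075 * (E / L)) := (Real.exp_add _ _).symm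
      _ ≤ _ := by
        apply Real.exp_le_exp.mpr
        have h5 : s * (2.23 * E) = 0.000223 * (E / L) := by
          have : s * (2.23 * E) = 2.23 * (s * E) := by ring
          rw [this, hsE]; ring
        rw [h5]
        linarith

/-- norm of the exponential factor -/
theorem norm_exp_part (A B r θ ε : ℝ) :
    ‖Complex.exp (((r : ℂ) * ((A : ℂ) * Complex.cos ((θ : ℂ) + (ε : ℂ) * Complex.I) +
      (B : ℂ) * Complex.sin ((θ : ℂ) + (ε : ℂ) * Complex.I))) * Complex.I)‖ =
      Real.exp (Real.sinh ε * (A * (r * Real.sin θ) - B * (r * Real.cos θ))) := by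
  rw [Complex.norm_exp]
  congr 1
  rw [Complex.cos_add_mul_I, Complex.sin_add_mul_I]
  simp only [← Complex.ofReal_cos, ← Complex.ofReal_sin, ← Complex.ofReal_sinh,
    ← Complex.ofReal_cosh]
  simp [Complex.sin_ofReal_re, Complex.cos_ofReal_re, Complex.sinh_ofReal_re,
    Complex.cosh_ofReal_re]
  ring

theorem norm_cos_sq (a b : ℝ) :
    ‖Complex.cos ((a : ℂ) + (b : ℂ) * Complex.I)‖ ^ 2 = Real.cos a ^ 2 + Real.sinh b ^ 2 := by
  rw [Complex.cos_add_mul_I, ← Complex.normSq_eq_norm_sq, Complex.normSq_apply]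
  simp only [← Complex.ofReal_cos, ← Complex.ofReal_sin, ← Complex.ofReal_sinh,
    ← Complex.ofReal_cosh]
  simp [Complex.sin_ofReal_re, Complex.cos_ofReal_re, Complex.sinh_ofReal_re,
    Complex.cosh_ofReal_re]
  have h1 := Real.cosh_sq b
  have h2 := Real.sin_sq_add_cos_sq a
  linear_combination Real.cos a ^ 2 * h1 + Real.sinh b ^ 2 * h2

theorem norm_cos_part (w1 w2 r θ ε φ : ℝ) (J : ℕ) :
    ‖Complex.cos (((r : ℂ) * ((w1 : ℂ) * Complex.cos ((θ : ℂ) + (ε : ℂ) * Complex.I) +
          (w2 : ℂ) * Complex.sin ((θ : ℂ) + (ε : ℂ) * Complex.I)) - φ) / 2) ^ (2 * J)‖ =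
      (Real.cos (((w1 * (r * Real.cos θ) + w2 * (r * Real.sin θ)) * Real.cosh ε - φ) / 2) ^ 2 +
        Real.sinh ((w1 * (r * Real.sin θ) - w2 * (r * Real.cos θ)) * Real.sinh ε / 2) ^ 2) ^ J := by
  rw [norm_pow, pow_mul]
  congr 1
  have h1 : (((r : ℂ) * ((w1 : ℂ) * Complex.cos ((θ : ℂ) + (ε : ℂ) * Complex.I) +
          (w2 : ℂ) * Complex.sin ((θ : ℂ) + (ε : ℂ) * Complex.I)) - φ) / 2) =
      ((((w1 * (r * Real.cos θ) + w2 * (r * Real.sin θ)) * Real.cosh ε - φ) / 2 : ℝ) : ℂ) +
      ((-((w1 * (r * Real.sin θ) - w2 * (r * Real.cos θ)) * Real.sinh ε / 2) : ℝ) : ℂ) *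
        Complex.I := by
    rw [Complex.cos_add_mul_I, Complex.sin_add_mul_I]
    push_cast
    ring
  rw [h1, norm_cos_sq, Real.sinh_neg]
  ring

end Pool.Agent.H56.VM
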